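import Pool.Agent.X75.SK.Defs
import Pool.Agent.X75.SK.HL

set_option autoImplicit false

/-!
# A spin Kostka polynomial that is not palindromic

`Q_ξ(x) = ∑_μ K⁻_{ξμ}(t) P_μ(x; t)` with the Schur `Q`-function `Q_ξ` (marked shifted tableaux) and
the Hall-Littlewood functions `P_μ`. For `ξ = (4, 2)` and `μ = (3, 2, 1)`,
`K⁻_{ξμ}(t) = 8 + 12 t + 4 t²`.
-/

namespace Pool.Agent.Results.MP_2c9e21_co.NotPalindromic

open Finset Pool.Agent.X75.SK
open scoped Polynomial LaurentPolynomial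

/-- The cells `(i, j)`, `i < ℓ(ξ)`, `i ≤ j < i + ξ_i`, of the shifted diagram of `ξ` (rows and
columns are numbered from `0`). -/
def cells (ξ : List ℕ) : Finset (ℕ × ℕ) :=
  (Finset.range ξ.length).biUnion fun i =>
    (Finset.Ico i (i + ξ.getD i 0)).image fun j => (i, j)

/-- Marked shifted tableaux with letters `1' < 1 < 2' < 2 < ⋯ < N' < N`: the letter `k'` is
`2 (k - 1)` and the letter `k` is `2 (k - 1) + 1`. Rows and columns are weakly increasing, no primed
(even) letter repeats in a row, no unprimed (odd) letter repeats in a column. -/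
def IsMarked (ξ : List ℕ) {N : ℕ} (T : cells ξ → Fin (2 * N)) : Prop :=
  (∀ c d : cells ξ, c.1.1 = d.1.1 → c.1.2 < d.1.2 →
    T c ≤ T d ∧ (T c = T d → (T c : ℕ) % 2 = 1)) ∧
  (∀ c d : cells ξ, c.1.2 = d.1.2 → c.1.1 < d.1.1 →
    T c ≤ T d ∧ (T c = T d → (T c : ℕ) % 2 = 0))

/-- the number of a letter without its mark -/
def absIndex {N : ℕ} (a : Fin (2 * N)) : Fin N := ⟨a / 2, by omega⟩

open Classical in
/-- The Schur `Q`-function `Q_ξ(x_1, …, x_N)`. -/
noncomputable def schurQ (N : ℕ) (ξ : List ℕ) : MvPolynomial (Fin N) ℤ[X] :=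
  ∑ T : cells ξ → Fin (2 * N), if IsMarked ξ T then
    ∏ c, MvPolynomial.X (absIndex (T c)) else 0

/-- the field of fractions of `ℤ[t][x_1, …, x_N]` -/
abbrev Frac (N : ℕ) : Type := FractionRing (MvPolynomial (Fin N) ℤ[X])

/-- the variable `x_i` in the field of fractions -/
noncomputable def xx {N : ℕ} (i : Fin N) : Frac N := algebraMap (MvPolynomial (Fin N) ℤ[X]) _ (MvPolynomial.X i)

/-- a polynomial in `t` in the field of fractions -/
noncomputable def tt (N : ℕ) (f : ℤ[X]) : Frac N := algebraMap (MvPolynomial (Fin N) ℤ[X]) _ (MvPolynomial.C f)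

/-- `v_m(t) = ∏_{i=1}^{m} (1 - t^i) / (1 - t)`. -/
noncomputable def vm (m : ℕ) : ℤ[X] := ∏ i ∈ Finset.range m, ∑ k ∈ Finset.range (i + 1), Polynomial.X ^ k

/-- `v_μ(t) = ∏_{k ≥ 0} v_{m_k}(t)`, where `m_k` is the number of `i ≤ N` with `μ_i = k`. -/
noncomputable def vmu {N : ℕ} (μ : Fin N → ℕ) : ℤ[X] :=
  ∏ k ∈ Finset.univ.image μ, vm (Finset.univ.filter fun i => μ i = k).card

/-- The Hall-Littlewood polynomial
`P_μ(x_1, …, x_N; t) = v_μ(t)⁻¹ ∑_{w ∈ S_N} w(x^μ ∏_{i<j} (x_i - t x_j) / (x_i - x_j))`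
(Macdonald, III (2.1), (2.2)). -/
noncomputable def hallP {N : ℕ} (μ : Fin N → ℕ) : Frac N :=
  (∑ w : Equiv.Perm (Fin N), (∏ i, xx (w i) ^ μ i) *
    ∏ i, ∏ j ∈ Finset.Ioi i, (xx (w i) - tt N Polynomial.X * xx (w j)) / (xx (w i) - xx (w j))) /
    tt N (vmu μ)

/-- the partition with the parts `μ_i` (the zeros are left out) -/
def parts {N : ℕ} (μ : Fin N → ℕ) : Multiset ℕ := (Finset.univ.val.map μ).filter (· ≠ 0)

/-- the partitions of `n` with at most `N` parts, as weakly decreasing functions `Fin N → ℕ` -/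
def partitions (N n : ℕ) : Finset (Fin N → ℕ) :=
  (Finset.Nat.antidiagonalTuple N n).filter fun μ => ∀ i j : Fin N, i ≤ j → μ j ≤ μ i

/-- `Q_ξ(x_1, …, x_N) = ∑_μ K_μ(t) P_μ(x_1, …, x_N; t)`, the sum over the partitions `μ` of `|ξ|`
with at most `N` parts. -/
def Expansion (N : ℕ) (ξ : List ℕ) (K : Multiset ℕ → ℤ[X]) : Prop :=
  algebraMap (MvPolynomial (Fin N) ℤ[X]) (Frac N) (schurQ N ξ) =
    ∑ μ ∈ partitions N ξ.sum, tt N (K (parts μ)) * hallP μ

/-- `K(μ)`, `μ` a partition, are the spin Kostka polynomials `K⁻_{ξμ}(t)`: the expansion of `Q_ξ` holds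
in infinitely many variables, i.e. in `N` variables for all `N`. -/
def IsSpinKostka (ξ : List ℕ) (K : Multiset ℕ → ℤ[X]) : Prop := ∀ N : ℕ, Expansion N ξ K

/-- `t^m f(1/t) = f(t)` for some integer `m`. -/
def Palindromic (f : ℤ[X]) : Prop :=
  ∃ m : ℤ, LaurentPolynomial.T m * LaurentPolynomial.invert (Polynomial.toLaurent f) =
    Polynomial.toLaurent f

/-! ### The Schur function -/

/-- the cells of `(4, 2)` -/
def cell : Fin 6 → cells [4, 2] :=
  ![⟨(0, 1), by decide⟩, ⟨(0, 2), by decide⟩, ⟨(1, 1), by decide⟩, ⟨(1, 2), by decide⟩,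
    ⟨(0, 0), by decide⟩, ⟨(0, 3), by decide⟩]

lemma cell_bij : Function.Bijective cell := by
  constructor
  · decide
  · decide

noncomputable def cellEquiv : Fin 6 ≃ cells [4, 2] := Equiv.ofBijective cell cell_bij

/-- the coordinates of the cells -/
def pos : Fin 6 → ℕ × ℕ := ![(0, 1), (0, 2), (1, 1), (1, 2), (0, 0), (0, 3)]

lemma cell_pos (i : Fin 6) : (cellEquiv i).1 = pos i := by
  fin_cases i <;> rfl

lemma rr_iff (a b : Fin 6) : rr a b = true ↔ (a.1 ≤ b.1 ∧ (a.1 = b.1 → a.1 % 2 = 1)) := by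
  revert a b; decide

lemma cc_iff (a b : Fin 6) : cc a b = true ↔ (a.1 ≤ b.1 ∧ (a.1 = b.1 → a.1 % 2 = 0)) := by
  revert a b; decide

lemma isMarked_iff (f : Fin 6 → Fin (2 * 3)) :
    IsMarked [4, 2] (f ∘ cellEquiv.symm) ↔
      (rr (f 4) (f 0) && rr (f 0) (f 1) && rr (f 1) (f 5) && rr (f 2) (f 3) && cc (f 0) (f 2) &&
        cc (f 1) (f 3)) = true := by
  have h1 : IsMarked [4, 2] (f ∘ cellEquiv.symm) ↔
      (∀ i j : Fin 6, (pos i).1 = (pos j).1 → (pos i).2 < (pos j).2 →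
        (f i).1 ≤ (f j).1 ∧ ((f i).1 = (f j).1 → (f i).1 % 2 = 1)) ∧
      (∀ i j : Fin 6, (pos i).2 = (pos j).2 → (pos i).1 < (pos j).1 →
        (f i).1 ≤ (f j).1 ∧ ((f i).1 = (f j).1 → (f i).1 % 2 = 0)) := by
    unfold IsMarked
    refine and_congr ?_ ?_
    · rw [← cellEquiv.forall_congr_right]
      refine forall_congr' fun i => ?_
      rw [← cellEquiv.forall_congr_right]
      refine forall_congr' fun j => ?_
      simp only [Function.comp_apply, Equiv.symm_apply_apply, cell_pos, Fin.le_def, Fin.ext_iff]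
    · rw [← cellEquiv.forall_congr_right]
      refine forall_congr' fun i => ?_
      rw [← cellEquiv.forall_congr_right]
      refine forall_congr' fun j => ?_
      simp only [Function.comp_apply, Equiv.symm_apply_apply, cell_pos, Fin.le_def, Fin.ext_iff]
  rw [h1]
  simp only [Bool.and_eq_true, rr_iff, cc_iff]
  constructor
  · rintro ⟨h, h'⟩
    exact ⟨⟨⟨⟨⟨h 4 0 rfl (by decide), h 0 1 rfl (by decide)⟩, h 1 5 rfl (by decide)⟩,
      h 2 3 rfl (by decide)⟩, h' 0 2 rfl (by decide)⟩, h' 1 3 rfl (by decide)⟩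
  · rintro ⟨⟨⟨⟨⟨a1, a2⟩, a3⟩, a4⟩, a5⟩, a6⟩
    constructor
    · intro i j
      fin_cases i <;> fin_cases j <;> simp [pos] <;> omega
    · intro i j
      fin_cases i <;> fin_cases j <;> simp [pos] <;> omega

lemma schurQ_eq : schurQ 3 [4, 2] = (fun x : Fin 3 → MvPolynomial (Fin 3) ℤ[X] =>
      4 * x 0 ^ 4 * x 1 ^ 2 + 8 * x 0 ^ 4 * x 1 * x 2 + 4 * x 0 ^ 4 * x 2 ^ 2 +
        8 * x 0 ^ 3 * x 1 ^ 3 + 24 * x 0 ^ 3 * x 1 ^ 2 * x 2 + 24 * x 0 ^ 3 * x 1 * x 2 ^ 2 +
        8 * x 0 ^ 3 * x 2 ^ 3 + 4 * x 0 ^ 2 * x 1 ^ 4 + 24 * x 0 ^ 2 * x 1 ^ 3 * x 2 +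
        40 * x 0 ^ 2 * x 1 ^ 2 * x 2 ^ 2 + 24 * x 0 ^ 2 * x 1 * x 2 ^ 3 +
        4 * x 0 ^ 2 * x 2 ^ 4 + 8 * x 0 * x 1 ^ 4 * x 2 + 24 * x 0 * x 1 ^ 3 * x 2 ^ 2 +
        24 * x 0 * x 1 ^ 2 * x 2 ^ 3 + 8 * x 0 * x 1 * x 2 ^ 4 + 4 * x 1 ^ 4 * x 2 ^ 2 +
        8 * x 1 ^ 3 * x 2 ^ 3 + 4 * x 1 ^ 2 * x 2 ^ 4) MvPolynomial.X := by
  classical
  refine Eq.trans ?_ (total_sum (A := MvPolynomial (Fin 3) ℤ[X]) MvPolynomial.X)
  unfold schurQ
  rw [← (Equiv.arrowCongr cellEquiv (Equiv.refl (Fin (2 * 3)))).sum_comp]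
  have h : ∀ f : Fin 6 → Fin (2 * 3), (Equiv.arrowCongr cellEquiv (Equiv.refl (Fin (2 * 3)))) f =
      f ∘ cellEquiv.symm := fun f => rfl
  simp only [h]
  rw [sum_six]
  refine Finset.sum_congr rfl fun b _ => Finset.sum_congr rfl fun c _ => Finset.sum_congr rfl
    fun e _ => Finset.sum_congr rfl fun g _ => Finset.sum_congr rfl fun a _ =>
    Finset.sum_congr rfl fun d _ => ?_
  have h2 := isMarked_iff ![b, c, e, g, a, d]
  have h3 : (∏ k : cells [4, 2], MvPolynomial.X (R := ℤ[X]) (absIndex ((![b, c, e, g, a, d] ∘ cellEquiv.symm) k))) =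
      yy MvPolynomial.X b * yy MvPolynomial.X c * yy MvPolynomial.X e * yy MvPolynomial.X g *
        yy MvPolynomial.X a * yy MvPolynomial.X d := by
    rw [← cellEquiv.prod_comp, Fin.prod_univ_six]
    simp only [Function.comp_apply, Equiv.symm_apply_apply]
    rfl
  rw [h3]
  refine if_congr ?_ rfl rfl
  rw [h2]
  rfl

lemma palin : ¬ Palindromic (4 * Polynomial.X ^ 2 + 12 * Polynomial.X + 8 : ℤ[X]) := by
  rintro ⟨m, h⟩
  have e : Polynomial.toLaurent (4 * Polynomial.X ^ 2 + 12 * Polynomial.X + 8 : ℤ[X]) =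
      LaurentPolynomial.C 4 * LaurentPolynomial.T 2 + LaurentPolynomial.C 12 * LaurentPolynomial.T 1 +
        LaurentPolynomial.C 8 * LaurentPolynomial.T 0 := by
    have h4 : (4 : ℤ[X]) = Polynomial.C 4 := by simp
    have h12 : (12 : ℤ[X]) = Polynomial.C 12 := by simp
    have h8 : (8 : ℤ[X]) = Polynomial.C 8 := by simp
    rw [h4, h12, h8]
    simp only [map_add, map_mul, Polynomial.toLaurent_C, Polynomial.toLaurent_X_pow,
      Polynomial.toLaurent_X, LaurentPolynomial.T_zero, mul_one]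
    simp
  rw [e] at h
  simp only [map_add, map_mul, LaurentPolynomial.invert_C, LaurentPolynomial.invert_T, mul_add] at h
  have h5 : ∀ n : ℤ, ∀ c : ℤ, LaurentPolynomial.T m * (LaurentPolynomial.C c * LaurentPolynomial.T n) =
      LaurentPolynomial.C c * LaurentPolynomial.T (m + n) := by
    intro n c
    rw [LaurentPolynomial.T_add]
    ring
  rw [h5, h5, h5] at h
  simp only [← LaurentPolynomial.single_eq_C_mul_T] at h
  have c0 := congrArg (fun f : ℤ[T;T⁻¹] => f.coeff 0) h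
  have c2 := congrArg (fun f : ℤ[T;T⁻¹] => f.coeff 2) h
  simp only [AddMonoidAlgebra.coeff_add, AddMonoidAlgebra.coeff_single, Finsupp.add_apply,
    Finsupp.single_apply] at c0 c2
  split_ifs at c0 c2 <;> omega

/-! ### The Hall-Littlewood polynomials in three variables -/

lemma partitions_eq : partitions 3 6 =
    {![6, 0, 0], ![5, 1, 0], ![4, 2, 0], ![4, 1, 1], ![3, 3, 0], ![3, 2, 1], ![2, 2, 2]} := by
  decide

/-- the embedding of the polynomials -/
noncomputable abbrev emb : MvPolynomial (Fin 3) ℤ[X] →+* Frac 3 := algebraMap _ _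

lemma emb_inj : Function.Injective emb := IsFractionRing.injective _ _

lemma xx_eq (i : Fin 3) : xx i = emb (MvPolynomial.X i) := rfl

lemma tt_eq (f : ℤ[X]) : tt 3 f = emb (MvPolynomial.C f) := rfl

lemma sub_ne {i j : Fin 3} (h : i ≠ j) : xx i - xx j ≠ 0 := by
  rw [xx_eq, xx_eq, ← map_sub]
  intro h0
  have h1 := emb_inj (h0.trans (map_zero emb).symm)
  exact h (MvPolynomial.X_injective (sub_eq_zero.mp h1))

lemma vd_ne : vd (xx : Fin 3 → Frac 3) ≠ 0 :=
  mul_ne_zero (mul_ne_zero (sub_ne (by decide)) (sub_ne (by decide))) (sub_ne (by decide))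

lemma tt_ne {f : ℤ[X]} (h : f ≠ 0) : tt 3 f ≠ 0 := by
  rw [tt_eq]
  intro h0
  have h1 := emb_inj (h0.trans (map_zero emb).symm)
  exact h (MvPolynomial.C_injective _ _ (h1.trans (map_zero MvPolynomial.C).symm))

lemma hall_eq (μ : Fin 3 → ℕ) (v : ℤ[X]) (hv : vmu μ = v) (hv0 : v ≠ 0) (P : Frac 3)
    (h : num xx (tt 3 Polynomial.X) (μ 0) (μ 1) (μ 2) = P * tt 3 v * vd xx) : hallP μ = P := by
  unfold hallP
  rw [hv, div_eq_iff (tt_ne hv0)]
  apply mul_right_cancel₀ vd_ne
  rw [← h]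
  exact sym_eq _ _ μ (sub_ne (by decide)) (sub_ne (by decide)) (sub_ne (by decide))

lemma vm1 : vm 1 = 1 := by simp [vm]
lemma vm2 : vm 2 = 1 + Polynomial.X := by
  simp [vm, Finset.prod_range_succ, Finset.sum_range_succ]
lemma vm3 : vm 3 = (1 + Polynomial.X) * (1 + Polynomial.X + Polynomial.X ^ 2) := by
  simp [vm, Finset.prod_range_succ, Finset.sum_range_succ]

lemma one_add_ne : (1 + Polynomial.X : ℤ[X]) ≠ 0 := by
  intro h
  have := congrArg (Polynomial.eval 0) h
  simp at this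

lemma one_add_add_ne : (1 + Polynomial.X + Polynomial.X ^ 2 : ℤ[X]) ≠ 0 := by
  intro h
  have := congrArg (Polynomial.eval 0) h
  simp at this

lemma vmu_one {μ : Fin 3 → ℕ} {a b c : ℕ} (h : Finset.univ.image μ = {a, b, c}) (h1 : a ∉ ({b, c} : Finset ℕ))
    (h2 : b ∉ ({c} : Finset ℕ)) (ha : (Finset.univ.filter fun i => μ i = a).card = 1)
    (hb : (Finset.univ.filter fun i => μ i = b).card = 1)
    (hc : (Finset.univ.filter fun i => μ i = c).card = 1) : vmu μ = 1 := by
  rw [vmu, h, Finset.prod_insert h1, Finset.prod_insert h2, Finset.prod_singleton, ha, hb, hc, vm1]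
  simp

lemma vmu_two {μ : Fin 3 → ℕ} {a b : ℕ} (h : Finset.univ.image μ = {a, b})
    (h1 : a ∉ ({b} : Finset ℕ)) (ha : (Finset.univ.filter fun i => μ i = a).card = 1)
    (hb : (Finset.univ.filter fun i => μ i = b).card = 2) : vmu μ = 1 + Polynomial.X := by
  rw [vmu, h, Finset.prod_insert h1, Finset.prod_singleton, ha, hb, vm1, vm2, one_mul]

lemma vmu_three {μ : Fin 3 → ℕ} {a : ℕ} (h : Finset.univ.image μ = {a})
    (ha : (Finset.univ.filter fun i => μ i = a).card = 3) :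
    vmu μ = (1 + Polynomial.X) * (1 + Polynomial.X + Polynomial.X ^ 2) := by
  rw [vmu, h, Finset.prod_singleton, ha, vm3]

lemma tt_one : tt 3 1 = 1 := by rw [tt_eq]; simp
lemma tt_two : tt 3 (1 + Polynomial.X) = 1 + tt 3 Polynomial.X := by
  simp only [tt_eq, map_add, map_one]
lemma tt_three : tt 3 ((1 + Polynomial.X) * (1 + Polynomial.X + Polynomial.X ^ 2)) =
    (1 + tt 3 Polynomial.X) * (1 + tt 3 Polynomial.X + tt 3 Polynomial.X ^ 2) := by
  simp only [tt_eq, map_add, map_one, map_mul, map_pow]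

lemma hall6 : hallP ![6, 0, 0] = P6 xx (tt 3 Polynomial.X) :=
  hall_eq _ _ (vmu_two (a := 6) (b := 0) (by decide) (by decide) (by decide) (by decide))
    one_add_ne _ (by rw [tt_two]; exact num6 _ _)

lemma hall51 : hallP ![5, 1, 0] = P51 xx (tt 3 Polynomial.X) :=
  hall_eq _ _ (vmu_one (a := 5) (b := 1) (c := 0) (by decide) (by decide) (by decide) (by decide)
    (by decide) (by decide)) one_ne_zero _ (by rw [tt_one]; exact num51 _ _)

lemma hall42 : hallP ![4, 2, 0] = P42 xx (tt 3 Polynomial.X) :=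
  hall_eq _ _ (vmu_one (a := 4) (b := 2) (c := 0) (by decide) (by decide) (by decide) (by decide)
    (by decide) (by decide)) one_ne_zero _ (by rw [tt_one]; exact num42 _ _)

lemma hall411 : hallP ![4, 1, 1] = P411 xx (tt 3 Polynomial.X) :=
  hall_eq _ _ (vmu_two (a := 4) (b := 1) (by decide) (by decide) (by decide) (by decide))
    one_add_ne _ (by rw [tt_two]; exact num411 _ _)

lemma hall33 : hallP ![3, 3, 0] = P33 xx (tt 3 Polynomial.X) :=
  hall_eq _ _ (vmu_two (a := 0) (b := 3) (by decide) (by decide) (by decide) (by decide))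
    one_add_ne _ (by rw [tt_two]; exact num33 _ _)

lemma hall321 : hallP ![3, 2, 1] = P321 xx (tt 3 Polynomial.X) :=
  hall_eq _ _ (vmu_one (a := 3) (b := 2) (c := 1) (by decide) (by decide) (by decide) (by decide)
    (by decide) (by decide)) one_ne_zero _ (by rw [tt_one]; exact num321 _ _)

lemma hall222 : hallP ![2, 2, 2] = P222 xx :=
  hall_eq _ _ (vmu_three (a := 2) (by decide) (by decide))
    (mul_ne_zero one_add_ne one_add_add_ne) _ (by rw [tt_three]; exact num222 _ _)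

/-- The expansion in three variables as an identity of polynomials. -/
lemma expansion_iff (K : Multiset ℕ → ℤ[X]) : Expansion 3 [4, 2] K ↔
    schurQ 3 [4, 2] =
      MvPolynomial.C (K {6}) * P6 MvPolynomial.X (MvPolynomial.C Polynomial.X) +
      (MvPolynomial.C (K {5, 1}) * P51 MvPolynomial.X (MvPolynomial.C Polynomial.X) +
      (MvPolynomial.C (K {4, 2}) * P42 MvPolynomial.X (MvPolynomial.C Polynomial.X) +
      (MvPolynomial.C (K {4, 1, 1}) * P411 MvPolynomial.X (MvPolynomial.C Polynomial.X) +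
      (MvPolynomial.C (K {3, 3}) * P33 MvPolynomial.X (MvPolynomial.C Polynomial.X) +
      (MvPolynomial.C (K {3, 2, 1}) * P321 MvPolynomial.X (MvPolynomial.C Polynomial.X) +
      MvPolynomial.C (K {2, 2, 2}) * P222 MvPolynomial.X))))) := by
  unfold Expansion
  have h6 : ([4, 2] : List ℕ).sum = 6 := rfl
  have p1 : parts ![6, 0, 0] = {6} := by decide
  have p2 : parts ![5, 1, 0] = {5, 1} := by decide
  have p3 : parts ![4, 2, 0] = {4, 2} := by decide
  have p4 : parts ![4, 1, 1] = {4, 1, 1} := by decide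
  have p5 : parts ![3, 3, 0] = {3, 3} := by decide
  have p6 : parts ![3, 2, 1] = {3, 2, 1} := by decide
  have p7 : parts ![2, 2, 2] = {2, 2, 2} := by decide
  rw [h6, partitions_eq, Finset.sum_insert (by decide), Finset.sum_insert (by decide),
    Finset.sum_insert (by decide), Finset.sum_insert (by decide), Finset.sum_insert (by decide),
    Finset.sum_insert (by decide), Finset.sum_singleton, hall6, hall51, hall42, hall411, hall33,
    hall321, hall222, p1, p2, p3, p4, p5, p6, p7]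
  rw [← emb_inj.eq_iff]
  simp only [tt_eq, map_add, map_mul, P6, P51, P42, P411, P33, P321, P222, m6, m51, m42, m411, m33,
    m321, m222, map_sub, map_pow, map_one, map_ofNat, xx_eq]

/-- the coefficients of the expansion in three variables -/
lemma value (K : Multiset ℕ → ℤ[X]) (hK : Expansion 3 [4, 2] K) :
    K {3, 2, 1} = 4 * Polynomial.X ^ 2 + 12 * Polynomial.X + 8 := by
  rw [expansion_iff, schurQ_eq] at hK
  have E0 := congrArg (MvPolynomial.eval (![1, 0, 0] : Fin 3 → ℤ[X])) hK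
  have E1 := congrArg (MvPolynomial.eval (![1, 1, 0] : Fin 3 → ℤ[X])) hK
  have E2 := congrArg (MvPolynomial.eval (![1, -1, 0] : Fin 3 → ℤ[X])) hK
  have E3 := congrArg (MvPolynomial.eval (![2, 1, 0] : Fin 3 → ℤ[X])) hK
  have E4 := congrArg (MvPolynomial.eval (![1, 1, 1] : Fin 3 → ℤ[X])) hK
  have E5 := congrArg (MvPolynomial.eval (![1, 1, -1] : Fin 3 → ℤ[X])) hK
  have E6 := congrArg (MvPolynomial.eval (![1, 1, 2] : Fin 3 → ℤ[X])) hK
  simp only [P6, P51, P42, P411, P33, P321, P222, m6, m51, m42, m411, m33,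
    m321, m222, map_add, map_mul, map_sub, map_pow, map_one, map_ofNat, MvPolynomial.eval_X,
    MvPolynomial.eval_C, Matrix.cons_val_zero, Matrix.cons_val_one, Matrix.cons_val] at E0 E1 E2 E3 E4 E5 E6
  have k6 : K {6} = 0 := by linear_combination -E0
  rw [k6] at E1 E2 E3 E4 E5 E6
  have k51' : (18 : ℤ[X]) * K {5, 1} = 18 * 0 := by
    linear_combination -E3 + 9 * E1 + E2
  have k51 : K {5, 1} = 0 := mul_left_cancel₀ (by norm_num) k51'
  rw [k51] at E1 E2 E3 E4 E5 E6
  have k42' : (4 : ℤ[X]) * K {4, 2} = 4 * 4 := by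
    linear_combination -E1 - E2
  have k42 : K {4, 2} = 4 := mul_left_cancel₀ (by norm_num) k42'
  rw [k42] at E1 E2 E3 E4 E5 E6
  have k33 : K {3, 3} = 4 + 4 * Polynomial.X := by
    linear_combination -E1
  rw [k33] at E4 E5 E6
  have k321 : (48 : ℤ[X]) * K {3, 2, 1} = 48 * (4 * Polynomial.X ^ 2 + 12 * Polynomial.X + 8) := by
    linear_combination (-(24 + 36 * (1 - Polynomial.X))) * E4 + (8 + 4 * (1 - Polynomial.X)) * E5 +
      (4 + 8 * (1 - Polynomial.X)) * E6
  exact mul_left_cancel₀ (by norm_num) k321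

/-- A family of polynomials for which the expansion in three variables holds. -/
noncomputable def K0 (s : Multiset ℕ) : ℤ[X] :=
  if s = {4, 2} then 4 else if s = {4, 1, 1} then 4 + 4 * Polynomial.X else
  if s = {3, 3} then 4 + 4 * Polynomial.X else
  if s = {3, 2, 1} then 8 + 12 * Polynomial.X + 4 * Polynomial.X ^ 2 else
  if s = {2, 2, 2} then 4 + 8 * Polynomial.X + 12 * Polynomial.X ^ 2 + 12 * Polynomial.X ^ 3 +
    4 * Polynomial.X ^ 4 else 0

lemma exists_expansion : Expansion 3 [4, 2] K0 := by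
  rw [expansion_iff, schurQ_eq]
  have a1 : K0 {6} = 0 := by
    unfold K0
    rw [if_neg (by decide), if_neg (by decide), if_neg (by decide), if_neg (by decide),
      if_neg (by decide)]
  have a2 : K0 {5, 1} = 0 := by
    unfold K0
    rw [if_neg (by decide), if_neg (by decide), if_neg (by decide), if_neg (by decide),
      if_neg (by decide)]
  have a3 : K0 {4, 2} = 4 := by
    unfold K0
    rw [if_pos rfl]
  have a4 : K0 {4, 1, 1} = 4 + 4 * Polynomial.X := by
    unfold K0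
    rw [if_neg (by decide), if_pos rfl]
  have a5 : K0 {3, 3} = 4 + 4 * Polynomial.X := by
    unfold K0
    rw [if_neg (by decide), if_neg (by decide), if_pos rfl]
  have a6 : K0 {3, 2, 1} = 8 + 12 * Polynomial.X + 4 * Polynomial.X ^ 2 := by
    unfold K0
    rw [if_neg (by decide), if_neg (by decide), if_neg (by decide), if_pos rfl]
  have a7 : K0 {2, 2, 2} = 4 + 8 * Polynomial.X + 12 * Polynomial.X ^ 2 +
      12 * Polynomial.X ^ 3 + 4 * Polynomial.X ^ 4 := by
    unfold K0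
    rw [if_neg (by decide), if_neg (by decide), if_neg (by decide), if_neg (by decide), if_pos rfl]
  rw [a1, a2, a3, a4, a5, a6, a7]
  simp only [map_add, map_mul, map_pow, map_ofNat, map_zero, P6, P51, P42, P411, P33, P321, P222,
    m6, m51, m42, m411, m33, m321, m222]
  ring

/-- **The spin Kostka polynomial `K⁻_{ξμ}(t)`, `ξ = (4, 2)`, `μ = (3, 2, 1)`, is `8 + 12 t + 4 t²`, so
it is not palindromic.** -/
theorem result :
    -- the expansion of `Q_{(4,2)}` in three variables exists and determines the coefficient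
    (∃ K, Expansion 3 [4, 2] K) ∧
    (∀ K, Expansion 3 [4, 2] K →
      K {3, 2, 1} = 4 * Polynomial.X ^ 2 + 12 * Polynomial.X + 8 ∧ ¬ Palindromic (K {3, 2, 1})) ∧
    -- the negated form of the question
    (∃ (ξ : List ℕ) (μ : Multiset ℕ), ξ.Pairwise (· > ·) ∧ (∀ i ∈ ξ, 0 < i) ∧ (∀ i ∈ μ, 0 < i) ∧
      μ.sum = ξ.sum ∧ ∀ K, IsSpinKostka ξ K → ¬ Palindromic (K μ)) := by
  have main : ∀ K, Expansion 3 [4, 2] K →
      K {3, 2, 1} = 4 * Polynomial.X ^ 2 + 12 * Polynomial.X + 8 ∧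
        ¬ Palindromic (K {3, 2, 1}) := by
    intro K hK
    have h := value K hK
    exact ⟨h, by rw [h]; exact palin⟩
  refine ⟨⟨K0, exists_expansion⟩, main, [4, 2], {3, 2, 1}, by decide, by decide, by decide,
    by decide, fun K hK => (main K (hK 3)).2⟩

end Pool.Agent.Results.MP_2c9e21_co.NotPalindromic
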